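import Mathlib

/-! Interface statements of TEAM-MT (Siegel-Walfisz, Bombieri-Vinogradov, Maynard-Tao). -/

namespace Pool.Agent.H410R2

open Finset

/-- log-weighted sum of `Λ χ`. -/
noncomputable def psiLog (x : ℝ) (q : ℕ) (χ : DirichletCharacter ℂ q) : ℂ :=
  ∑ n ∈ Icc 1 ⌊x⌋₊, ((ArithmeticFunction.vonMangoldt n : ℝ) : ℂ) * χ (n : ZMod q) *
    ((Real.log (x / n) : ℝ) : ℂ)

/-- module A1 -/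
def LUpper : Prop := ∀ ε : ℝ, 0 < ε → ε ≤ 1 → ∃ C : ℝ, 0 < C ∧ ∀ (q : ℕ) [NeZero q]
  (χ : DirichletCharacter ℂ q), χ ≠ 1 → ∀ s : ℂ, 1 - ε / 4 ≤ s.re → s.re ≤ 2 →
    ‖χ.LFunction s‖ ≤ C * ((q : ℝ) * (|s.im| + 2)) ^ ε

/-- module A1' -/
def ZetaUpper : Prop := ∀ ε : ℝ, 0 < ε → ε ≤ 1 → ∃ C : ℝ, 0 < C ∧ ∀ s : ℂ, 1 - ε / 4 ≤ s.re → s.re ≤ 2 →
  s ≠ 1 → ‖riemannZeta s‖ ≤ C * (|s.im| + 2) ^ ε * (1 + 1 / ‖s - 1‖)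

/-- module A2 -/
def Siegel : Prop := ∀ ε : ℝ, 0 < ε → ∃ c : ℝ, 0 < c ∧ ∀ (q : ℕ) [NeZero q]
  (χ : DirichletCharacter ℂ q), χ.IsPrimitive → χ ^ 2 = 1 → χ ≠ 1 →
    c * (q : ℝ) ^ (-ε) ≤ ‖χ.LFunction 1‖

/-- module A3: from A1, A1', A2 -/
def SiegelWalfisz : Prop := ∀ A B : ℕ, ∃ x₀ : ℝ, ∀ x : ℝ, x₀ ≤ x → ∀ q : ℕ, 1 < q →
  (q : ℝ) ≤ (Real.log x) ^ B → ∀ χ : DirichletCharacter ℂ q, χ.IsPrimitive →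
    ‖psiLog x q χ‖ ≤ x / (Real.log x) ^ A

open Classical in
/-- module B: from A3 and the large sieve -/
def BVTotal : Prop := ∀ c : ℝ, 1 ≤ c → ∀ δ : ℝ, 0 < δ → ∀ A : ℕ, ∃ X₀ : ℝ, ∀ X : ℝ, X₀ ≤ X →
  ∑ f ∈ Icc 2 ⌊X ^ (1 / 2 - δ)⌋₊, (c ^ f.primeFactors.card / (Nat.totient f : ℝ)) *
    ∑ ψ ∈ (univ : Finset (DirichletCharacter ℂ f)).filter (fun ψ => ψ.IsPrimitive),
      ‖psiLog X f ψ‖ ≤ X / (Real.log X) ^ A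

end Pool.Agent.H410R2
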