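import Mathlib
import Pool.Agent.H27.G.R_seed8.H410R2.Iface

/-! Interface statements of TEAM-MT, part 2. -/

namespace Pool.Agent.H410R2

open Finset Filter Topology

/-- log-weighted prime counting in a residue class -/
noncomputable def psiLogAP (X : ℝ) (m r : ℕ) : ℝ :=
  ∑ n ∈ (Icc 1 ⌊X⌋₊).filter (fun n => n ≡ r [MOD m]),
    ArithmeticFunction.vonMangoldt n * Real.log (X / n)

/-- log-weighted prime counting -/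
noncomputable def psiLog1 (X : ℝ) : ℝ :=
  ∑ n ∈ Icc 1 ⌊X⌋₊, ArithmeticFunction.vonMangoldt n * Real.log (X / n)

/-- module B2 (from `BVTotal`) -/
def BVAP : Prop := ∀ m₀ : ℕ, 1 ≤ m₀ → ∀ c : ℝ, 1 ≤ c → ∀ δ : ℝ, 0 < δ → ∀ A : ℕ, ∃ X₀ : ℝ,
  ∀ X : ℝ, X₀ ≤ X → ∀ r : ℕ → ℕ,
    ∑ q ∈ (Icc 1 ⌊X ^ (1 / 2 - δ)⌋₊).filter (fun q => Squarefree q ∧ (r q).Coprime (m₀ * q)),
      c ^ q.primeFactors.card *
        |psiLogAP X (m₀ * q) (r q) - psiLog1 X / (Nat.totient (m₀ * q) : ℝ)|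
      ≤ X / (Real.log X) ^ A

/-- module B3 (from the PNT of `Helper923.PNT`) -/
def PNTLog : Prop := Tendsto (fun X : ℝ => psiLog1 X / X) atTop (𝓝 1)

/-- `P` is a finite set of primes `> D` containing all primes in `(D, y]`. -/
def IsWin (D : ℕ) (y : ℝ) (P : Finset ℕ) : Prop :=
  (∀ p ∈ P, p.Prime ∧ D < p) ∧ ∀ p : ℕ, p.Prime → D < p → (p : ℝ) ≤ y → p ∈ P

/-- `∏_{p ≤ D} (1 - 1/p)` -/
noncomputable def BD (D : ℕ) : ℝ := ∏ p ∈ (Icc 1 D).filter Nat.Prime, (1 - 1 / (p : ℝ))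

/-- sum over subsets of `P` of `∏ h p * F(log (∏ p) / L)`, truncated at `∏ p ≤ exp (c L)` -/
noncomputable def SS (P : Finset ℕ) (h : ℕ → ℝ) (c L : ℝ) (F : ℝ → ℝ) : ℝ :=
  ∑ a ∈ P.powerset, (∏ p ∈ a, h p) *
    (if Real.log (∏ p ∈ a, (p : ℝ)) ≤ c * L then F (Real.log (∏ p ∈ a, (p : ℝ)) / L) else 0)

/-- module C: one-dimensional sieve sums -/
def OneDim : Prop := ∀ (C c K : ℝ) (F : ℝ → ℝ), 0 < c →
  (∀ t ∈ Set.Icc 0 c, 0 ≤ F t ∧ F t ≤ K) →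
  (∀ s ∈ Set.Icc 0 c, ∀ t ∈ Set.Icc 0 c, |F s - F t| ≤ K * |s - t|) →
  ∀ ε : ℝ, 0 < ε → ∃ D₁ : ℕ, ∀ D : ℕ, D₁ ≤ D → ∀ h : ℕ → ℝ,
    (∀ p : ℕ, p.Prime → D < p → |h p - 1 / p| ≤ C / (p : ℝ) ^ 2) →
    ∃ L₁ : ℝ, ∀ L : ℝ, L₁ ≤ L → ∀ P : Finset ℕ, IsWin D (Real.exp (c * L)) P →
      |SS P h c L F - BD D * L * ∫ t in (0 : ℝ)..c, F t| ≤ ε * (BD D * L)

open Classical in
/-- the main theorem: Maynard-Tao, two primes among `k` linear forms, with the variable itself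
free of small prime factors -/
def MaynardTao (k : ℕ) : Prop := ∀ (a b : Fin k → ℕ), (∀ i, 1 ≤ a i) → (∀ i, 1 ≤ b i) →
  (∀ i j, i ≠ j → a i * b j ≠ a j * b i) →
  (∀ p : ℕ, p.Prime → ∃ n : ℕ, ¬ p ∣ n ∧ ∀ i, ¬ p ∣ a i * n + b i) →
  ∃ δ : ℝ, 0 < δ ∧ δ < 1 ∧ ∃ x₀ : ℝ, ∀ x : ℝ, x₀ ≤ x →
    x ^ (1 - δ / 2) ≤ (((Icc 1 ⌊x⌋₊).filter (fun n => (∀ p : ℕ, p.Prime → p ∣ n → x ^ δ < p) ∧
      ∃ i j, i ≠ j ∧ (a i * n + b i).Prime ∧ (a j * n + b j).Prime)).card : ℝ)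

end Pool.Agent.H410R2
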